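import Pool.Agent.PXE.Stmts

set_option autoImplicit false

/-!
# Squad PXE, row DST (helper91): the parameters can be chosen in `ℤ`
-/

namespace Pool.Agent.PXE.H91

open Polynomial
open Pool.Agent.Helper12_FV (onl topp)
open Pool.Agent.UO (point)

/-- the resultant on a line of the generator -/
noncomputable def rr (n t1 t2 : ℕ) (f g : MvPolynomial (Fin n) ℤ) {R : Type} [CommRing R]
    (w1 z1 : Fin t1 → R) (w2 z2 : Fin t2 → R) : R :=
  resultant (onl (fun s : Fin n => point n w2 z2 (s : ℕ)) (fun s : Fin n => point n w1 z1 (s : ℕ)) f)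
    (onl (fun s : Fin n => point n w2 z2 (s : ℕ)) (fun s : Fin n => point n w1 z1 (s : ℕ)) g)
    f.totalDegree g.totalDegree

theorem map_rr (n t1 t2 : ℕ) (f g : MvPolynomial (Fin n) ℤ) {R T : Type} [CommRing R] [CommRing T]
    (φ : R →+* T) (w1 z1 : Fin t1 → R) (w2 z2 : Fin t2 → R) :
    φ (rr n t1 t2 f g w1 z1 w2 z2) = rr n t1 t2 f g (fun j => φ (w1 j)) (fun j => φ (z1 j))
      (fun j => φ (w2 j)) (fun j => φ (z2 j)) := by
  have e1 : (fun s : Fin n => φ (point n w1 z1 (s : ℕ))) =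
      fun s : Fin n => point n (fun j => φ (w1 j)) (fun j => φ (z1 j)) (s : ℕ) :=
    funext fun s => Pool.Agent.UO.point_map φ n w1 z1 s
  have e2 : (fun s : Fin n => φ (point n w2 z2 (s : ℕ))) =
      fun s : Fin n => point n (fun j => φ (w2 j)) (fun j => φ (z2 j)) (s : ℕ) :=
    funext fun s => Pool.Agent.UO.point_map φ n w2 z2 s
  rw [rr, rr, ← resultant_map_map, Pool.Agent.Helper12_FV.map_onl, Pool.Agent.Helper12_FV.map_onl,
    e1, e2]

/-- DST -/
theorem dst : DstStmt := by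
  intro n t1 t2 f g R _ _ w1 z1 w2 z2 h
  set Rg : MvPolynomial ((Fin t1 ⊕ Fin t1) ⊕ (Fin t2 ⊕ Fin t2)) ℤ :=
    rr n t1 t2 f g (fun j => MvPolynomial.X (Sum.inl (Sum.inl j)))
      (fun j => MvPolynomial.X (Sum.inl (Sum.inr j)))
      (fun j => MvPolynomial.X (Sum.inr (Sum.inl j)))
      (fun j => MvPolynomial.X (Sum.inr (Sum.inr j))) with hRg
  have h0 : Rg ≠ 0 := by
    intro h0
    apply h
    have h1 := congrArg (MvPolynomial.eval₂Hom (Int.castRingHom R)
      (Sum.elim (Sum.elim w1 z1) (Sum.elim w2 z2))) h0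
    rw [map_zero, hRg, map_rr] at h1
    simp only [MvPolynomial.eval₂Hom_X', Sum.elim_inl, Sum.elim_inr] at h1
    exact h1
  have h2 : ∃ x : (Fin t1 ⊕ Fin t1) ⊕ (Fin t2 ⊕ Fin t2) → ℤ, MvPolynomial.eval x Rg ≠ 0 := by
    by_contra hc
    rw [not_exists] at hc
    simp only [not_not] at hc
    exact h0 (MvPolynomial.funext fun x => by rw [hc x, map_zero])
  obtain ⟨x, hx⟩ := h2
  rw [hRg, map_rr] at hx
  exact ⟨_, _, _, _, hx⟩

end Pool.Agent.PXE.H91
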